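import Pool.Agent.Lib.Ht.R.Glob

/-!
# HEIGHTS, instance: the normalisation `nm` of the tame generators exists
-/

set_option autoImplicit false

namespace Pool.Agent.SmH

open Pool.Agent.SmithC Pool.Agent.SmP Pool.Agent.Lib.SmD Pool.Agent.BSDFF Pool.Agent.Ht

section sys

variable {Ω : Type} [Field Ω]

/-- A compatible system of primitive roots of unity of 2-power order. -/
structure IsSysM (z : ℕ → MuT Ω) : Prop where
  two : ∀ m, (2 : ℕ) • z (m + 1) = z m
  prim : ∀ m, IsPrimitiveRoot (z m).el (2 ^ m)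

theorem IsSysM.two_pow {z : ℕ → MuT Ω} (hz : IsSysM z) (j m : ℕ) :
    (2 : ℕ) ^ j • z (m + j) = z m := by
  induction j with
  | zero => rw [pow_zero, one_smul, add_zero]
  | succ j ih => rw [pow_succ, mul_smul, ← add_assoc, hz.two, ih]

theorem IsSysM.smul_eq_iff {z : ℕ → MuT Ω} (hz : IsSysM z) (m a b : ℕ) :
    a • z m = b • z m ↔ a ≡ b [MOD 2 ^ m] := by
  have h1 : a • z m = b • z m ↔ (z m).el ^ a = (z m).el ^ b := by
    rw [← MuT.el_nsmul, ← MuT.el_nsmul]
    exact ⟨fun h => by rw [h], MuT.el_inj⟩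
  have h3 : IsOfFinOrder (z m).el := by
    rw [← orderOf_pos_iff, ← (hz.prim m).eq_orderOf]
    positivity
  rw [h1, (hz.prim m).eq_orderOf]
  have hu : (z m).el ≠ 0 := MuT.el_ne_zero _
  have e1 : ∀ n : ℕ, (z m).el ^ n = (((Units.mk0 _ hu : Ωˣ) ^ n : Ωˣ) : Ω) := fun n => by
    rw [Units.val_pow_eq_pow_val, Units.val_mk0]
  rw [e1, e1, Units.val_inj, pow_eq_pow_iff_modEq, ← orderOf_units, Units.val_mk0]

theorem IsSysM.exists_smul {z : ℕ → MuT Ω} (hz : IsSysM z) (u : MuT Ω) :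
    ∃ p : ℕ × ℕ, u = p.2 • z p.1 := by
  obtain ⟨m, hm⟩ := u.tors
  have h1 : u.el ^ 2 ^ m = 1 := by rw [← MuT.el_nsmul, hm, MuT.el_zero]
  have : NeZero (2 ^ m) := ⟨by positivity⟩
  obtain ⟨a, -, ha⟩ := (hz.prim m).eq_pow_of_pow_eq_one h1
  exact ⟨(m, a), MuT.el_inj (by rw [MuT.el_nsmul, ha])⟩

theorem IsSysM.smul_up {z : ℕ → MuT Ω} (hz : IsSysM z) (m n a : ℕ) :
    a • z m = (a * 2 ^ n) • z (m + n) := by
  rw [mul_smul, hz.two_pow]

/-- Two compatible systems correspond to each other under an injective endomorphism. -/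
theorem exists_hom_sys {z z' : ℕ → MuT Ω} (hz : IsSysM z) (hz' : IsSysM z') :
    ∃ φ : MuT Ω →+ MuT Ω, Function.Injective φ ∧ ∀ m, φ (z m) = z' m := by
  have wd : ∀ m n a b : ℕ, a • z m = b • z n → a • z' m = b • z' n := by
    intro m n a b h
    rw [hz.smul_up m n, hz.smul_up n m, add_comm n m, hz.smul_eq_iff] at h
    rw [hz'.smul_up m n, hz'.smul_up n m, add_comm n m, hz'.smul_eq_iff]
    exact h
  choose p hp using hz.exists_smul
  have key : ∀ (u : MuT Ω) (m a : ℕ), u = a • z m → (p u).2 • z' (p u).1 = a • z' m := by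
    intro u m a h
    apply wd
    rw [← hp u]
    exact h
  let φ : MuT Ω →+ MuT Ω :=
    { toFun := fun u => (p u).2 • z' (p u).1
      map_zero' := by
        have h1 := key 0 0 0 (by rw [zero_smul])
        rw [h1, zero_smul]
      map_add' := fun u v => by
        have h1 := key (u + v) ((p u).1 + (p v).1)
          ((p u).2 * 2 ^ (p v).1 + (p v).2 * 2 ^ (p u).1) (by
            conv_lhs => rw [hp u, hp v]
            rw [add_smul, ← hz.smul_up, add_comm (p u).1 (p v).1, ← hz.smul_up])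
        rw [h1, add_smul, ← hz'.smul_up, add_comm (p u).1 (p v).1, ← hz'.smul_up] }
  refine ⟨φ, ?_, fun m => ?_⟩
  · rw [injective_iff_map_eq_zero]
    intro u hu
    have h1 : (p u).2 • z' (p u).1 = 0 := hu
    rw [hp u]
    have h3 : (p u).2 • z' (p u).1 = 0 • z' (p u).1 := by rw [h1, zero_smul]
    rw [hz'.smul_eq_iff] at h3
    rw [← zero_smul ℕ (z (p u).1), hz.smul_eq_iff]
    exact h3
  · have h1 := key (z m) m 1 (by rw [one_smul])
    rw [one_smul] at h1
    exact h1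

end sys

variable {k Ω : Type} [Field k] [Finite k] [Field Ω] [Algebra (RatFunc k) Ω]
  [IsSepClosure (RatFunc k) Ω] (h2 : (2 : k) ≠ 0)

include h2

omit [Finite k] [IsSepClosure (RatFunc k) Ω] in
theorem two_ne_Om : (2 : Ω) ≠ 0 := by
  rw [← map_ofNat (algebraMap (RatFunc k) Ω) 2, ← map_ofNat (algebraMap k (RatFunc k)) 2]
  exact (map_ne_zero_iff _ (algebraMap (RatFunc k) Ω).injective).2
    ((map_ne_zero_iff _ (algebraMap k (RatFunc k)).injective).2 h2)

/-- The Kummer symbols of a uniformizer at the tame generator are a compatible system. -/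
theorem isSysM_kv (v : Place k (RatFunc k)) {π : v.ring} (hπ : Irreducible π) :
    IsSysM (Ω := Ω) fun m => toM (kv Ω m (π : RatFunc k) v) := by
  have hL := locHyp_ab (Om := Ω) h2 v hπ
  have hp0 : algebraMap (RatFunc k) Ω (π : RatFunc k) ≠ 0 := map_ne hL.pi_ne
  refine ⟨fun m => ?_, fun m => ?_⟩
  · apply MuT.el_inj
    rw [MuT.el_nsmul, toM_el (kv_pow h2 (m + 1) hL.pi_ne v), toM_el (kv_pow h2 m hL.pi_ne v),
      ← Units.val_pow_eq_pow_val]
    congr 1
    have hr := rtU_pow (k := k) h2 (m + 1) hp0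
    have hr2 : ((rtU (2 ^ (m + 1)) (algebraMap (RatFunc k) Ω (π : RatFunc k)) ^ 2 : Ωˣ) : Ω) ^
        (2 ^ m) = algebraMap (RatFunc k) Ω (π : RatFunc k) := by
      rw [Units.val_pow_eq_pow_val, ← pow_mul, ← pow_succ']
      exact hr
    have h3 : kumU (2 ^ m) (algebraMap (RatFunc k) Ω (π : RatFunc k)) (sg Ω v) =
      sg Ω v • (rtU (2 ^ (m + 1)) (algebraMap (RatFunc k) Ω (π : RatFunc k)) ^ 2) *
      (rtU (2 ^ (m + 1)) (algebraMap (RatFunc k) Ω (π : RatFunc k)) ^ 2)⁻¹ :=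
      kumU_eq h2 m hp0 (sg_HH h2 v) hr2
    change kumU (2 ^ (m + 1)) (algebraMap (RatFunc k) Ω (π : RatFunc k)) (sg Ω v) ^ 2 =
      kumU (2 ^ m) (algebraMap (RatFunc k) Ω (π : RatFunc k)) (sg Ω v)
    rw [h3]
    unfold kumU
    rw [smul_pow', mul_pow, inv_pow]
  · rw [toM_el (kv_pow h2 m hL.pi_ne v), IsPrimitiveRoot.coe_units_iff]
    exact kum_prim h2 m v hπ

/-- The Kummer symbol at the tame generator does not depend on the uniformizer. -/
theorem kv_unif (v : Place k (RatFunc k)) {π π' : v.ring} (hπ : Irreducible π)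
    (hπ' : Irreducible π') (m : ℕ) :
    kv Ω m (π : RatFunc k) v = kv Ω m (π' : RatFunc k) v := by
  have := v.dvr
  have hL := locHyp_ab (Om := Ω) h2 v hπ
  have hL' := locHyp_ab (Om := Ω) h2 v hπ'
  obtain ⟨u, hu⟩ := IsDiscreteValuationRing.associated_of_irreducible v.ring hπ hπ'
  have hu0 : ((u : v.ring) : RatFunc k) ≠ 0 := fun h => u.ne_zero (Subtype.ext h)
  have e1 : (π' : RatFunc k) = (π : RatFunc k) * ((u : v.ring) : RatFunc k) := by
    rw [← hu]
    rfl
  have hval : (ab Ω v).valuation (algebraMap (RatFunc k) Ω ((u : v.ring) : RatFunc k)) = 1 := by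
    have hb := below_ab (Om := Ω) v
    have hmem : ∀ y : v.ring, algebraMap (RatFunc k) Ω (y : RatFunc k) ∈ ab Ω v := fun y => by
      have h3 : (y : RatFunc k) ∈ below (RatFunc k) (ab Ω v) := by
        rw [hb]
        exact y.2
      exact h3
    have h4 : (((u⁻¹ : v.ringˣ) : v.ring) : RatFunc k) = (((u : v.ring) : RatFunc k))⁻¹ := by
      apply eq_inv_of_mul_eq_one_left
      have h5 : ((u⁻¹ : v.ringˣ) : v.ring) * (u : v.ring) = 1 := u.inv_mul
      exact congrArg (fun y : v.ring => (y : RatFunc k)) h5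
    have h6 := hmem (u : v.ring)
    have h7 := hmem ((u⁻¹ : v.ringˣ) : v.ring)
    rw [h4, map_inv₀] at h7
    rw [← ValuationSubring.valuation_le_one_iff] at h6 h7
    rw [map_inv₀] at h7
    have h8 : (ab Ω v).valuation (algebraMap (RatFunc k) Ω ((u : v.ring) : RatFunc k)) ≠ 0 :=
      (Valuation.ne_zero_iff _).2 (map_ne hu0)
    exact le_antisymm h6 ((inv_le_one₀ (zero_lt_iff.2 h8)).1 h7)
  rw [e1, kv_mul h2 m hL.pi_ne hu0 v, kv_unit h2 m v hval, mul_one]

/-- The normalisations exist. -/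
theorem exists_nm : ∃ nm : Place k (RatFunc k) → MuT Ω →+ MuT Ω, IsNm nm ∧
    (∀ v, Function.Injective (nm v)) ∧ ∀ v a, nm v (hfM Ω a) = hfM Ω a := by
  have hsc : IsSepClosed Ω := IsSepClosure.sep_closed (RatFunc k)
  have h20 : (2 : Ω) ≠ 0 := two_ne_Om (k := k) h2
  have hzet : IsSysM (Ω := Ω) (zet Ω) := ⟨two_zet, zet_prim h20⟩
  have hπ : ∀ v : Place k (RatFunc k), ∃ π : v.ring, Irreducible π := fun v => by
    have := v.dvr
    exact IsDiscreteValuationRing.exists_irreducible v.ring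
  choose π hπ using hπ
  have hex := fun v => exists_hom_sys (isSysM_kv (Ω := Ω) h2 v (hπ v)) hzet
  choose nm hinj hnm using hex
  refine ⟨nm, fun v π' hπ' m u hu => ?_, hinj, fun v a => ?_⟩
  · have h1 : u = toM (kv Ω m (π v : RatFunc k) v) := by
      apply MuT.el_inj
      have hL' := locHyp_ab (Om := Ω) h2 v hπ'
      rw [kv_unif h2 v (hπ v) hπ' m, toM_el (kv_pow h2 m hL'.pi_ne v), hu]
      rfl
    rw [h1]
    exact hnm v m
  · have h1 : toM (kv Ω 1 (π v : RatFunc k) v) = zet Ω 1 := by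
      apply MuT.el_inj
      have h3 := (isSysM_kv (Ω := Ω) h2 v (hπ v)).prim 1
      have h4 := hzet.prim 1
      rw [pow_one] at h3 h4
      rw [IsPrimitiveRoot.eq_neg_one_of_two_right h3, IsPrimitiveRoot.eq_neg_one_of_two_right h4]
    have h5 : nm v (zet Ω 1) = zet Ω 1 := by
      conv_lhs => rw [← h1]
      exact hnm v 1
    have h01 : ∀ a : ZMod 2, a = 0 ∨ a = 1 := by decide
    rcases h01 a with rfl | rfl
    · rw [map_zero, map_zero]
    · rw [hfM_one, h5]

end Pool.Agent.SmH
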