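import Pool.Agent.Lib.SmH.Inst.K2
import Pool.Agent.Lib.SmH.Inst.Nm
import Pool.Agent.Lib.Ht.R.Inst
import Pool.Agent.Lib.SmH.Conv
import Pool.Agent.Lib.SmJ.P.MInst
import Pool.Agent.Lib.SmJ.Inst.RecInst
import Pool.Agent.Lib.Sm.P.RecInst

/-!
# HEIGHTS, instance: the facts about the additional data

`exists_HOk`: for every system over `Gal(Ω / k(t))` with the usual decomposition data and Weil pairings
with values in `MuT Ω` there are data `H` with `HOk`, `IsNm`, `IsPDeg`; `exists_HOk_deg` adds the degree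
maps (`DegOk`). `hok_sysOf` (Jacobians), `hok_sysE` (genus one).
-/

set_option autoImplicit false

open Polynomial

namespace Pool.Agent.SmH

open Pool.Agent.SmithC Pool.Agent.SmP Pool.Agent.SmD Pool.Agent.Lib.SmD Pool.Agent.BSDFF
  Pool.Agent.Ht Pool.Agent.SmJ

section gen

variable {k Ω : Type} [Field k] [Finite k] [Field Ω] [Algebra (RatFunc k) Ω]
  [IsSepClosure (RatFunc k) Ω]

/-- Every place has a degree. -/
theorem exists_card_pow (v : Place k (RatFunc k)) :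
    ∃ n : ℕ, resCard (below (RatFunc k) (ab Ω v)) = Nat.card k ^ n := by
  rcases Pool.Agent.BSDP.R.place_cases v with rfl | ⟨P, hP, hPm, rfl⟩
  · exact ⟨1, resCard_infty⟩
  · exact ⟨P.natDegree, locRoot_resCard hP⟩

/-- The degrees exist. -/
theorem exists_isPDeg : ∃ deg : Place k (RatFunc k) → ℕ, IsPDeg Ω deg := by
  have hsc : IsSepClosed Ω := IsSepClosure.sep_closed (RatFunc k)
  have hgal : IsGalois (RatFunc k) Ω := IsSepClosure.isGalois
  obtain ⟨p, s, hp, -, hO, hs, hq⟩ := locRoot_char k Ω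
  have hpF : Fact p.Prime := ⟨hp⟩
  choose deg hdeg using exists_card_pow (k := k) (Ω := Ω)
  refine ⟨deg, fun v x hx => ?_⟩
  rw [← hdeg v]
  exact (ph_frob (Om := Ω) v).cst (hx.conv hs hq)

variable {V V1 : Type} [AddCommGroup V] [DistribMulAction (Ω ≃ₐ[RatFunc k] Ω) V]
  [AddCommGroup V1] [Module (ZMod 2) V1]

/-- **The facts about the additional data.** -/
theorem exists_HOk (h2 : (2 : k) ≠ 0)
    (S : SmJ.Sys (Ω ≃ₐ[RatFunc k] Ω) V V1 (Place k (RatFunc k)))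
    (hNN : S.NN = Pool.Agent.SmD.NN (RatFunc k) Ω) (hD : ∀ v, S.D v = dv Ω v)
    (hsg : ∀ v, S.sg v = sg Ω v) (hW : ∃ e, Weil S e (hfM Ω)) :
    ∃ H : HData V (MuT Ω) (Place k (RatFunc k)), HOk S H ∧ IsNm H.nm ∧ IsPDeg Ω H.deg ∧
      H.j = hfM Ω := by
  have hsc : IsSepClosed Ω := IsSepClosure.sep_closed (RatFunc k)
  have hgal : IsGalois (RatFunc k) Ω := IsSepClosure.isGalois
  obtain ⟨e, he⟩ := hW
  obtain ⟨deg, hdeg⟩ := exists_isPDeg (k := k) (Ω := Ω)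
  obtain ⟨nm, hnm, hinj, hj⟩ := exists_nm (k := k) (Ω := Ω) h2
  have h20 : (2 : Ω) ≠ 0 := two_ne_Om (k := k) h2
  obtain ⟨p, hp⟩ := CharP.exists k
  have hpp : p.Prime := CharP.char_is_prime k p
  have hfp : Fact p.Prime := ⟨hpp⟩
  have hpK : CharP (RatFunc k) p :=
    charP_of_injective_algebraMap (algebraMap k (RatFunc k)).injective p
  have hpΩ : CharP Ω p :=
    charP_of_injective_algebraMap (algebraMap (RatFunc k) Ω).injective p
  have hodd : Odd p := by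
    rcases hpp.eq_two_or_odd' with h | h
    · exfalso
      apply h2
      have := CharP.cast_eq_zero k p
      rw [h] at this
      exact_mod_cast this
    · exact h
  refine ⟨⟨e, hfM Ω, deg, nm⟩, ?_, hnm, hdeg, rfl⟩
  exact
    { weil := he
      inj := hfM_inj h20
      two := MuT.two h20
      tors := MuT.tors
      half := MuT.half h20
      act := by
        rw [hNN]
        exact MuT.act h20
      sgM := fun v m => by
        rw [hsg]
        exact MuT.smul_iner hodd (sg_iner (Om := Ω) h2 v) m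
      nm_inj := hinj
      nm_j := hj
      prod := prod_sys h2 S hNN hsg hnm hdeg
      hasse := hasse_muT h2 hNN hD }

/-- The facts about the additional data, with the degree maps. -/
theorem exists_HOk_deg (h2 : (2 : k) ≠ 0)
    (S : SmJ.Sys (Ω ≃ₐ[RatFunc k] Ω) V V1 (Place k (RatFunc k)))
    (hNN : S.NN = Pool.Agent.SmD.NN (RatFunc k) Ω) (hD : ∀ v, S.D v = dv Ω v)
    (hsg : ∀ v, S.sg v = sg Ω v) (hW : ∃ e, Weil S e (hfM Ω)) :
    ∃ (H : HData V (MuT Ω) (Place k (RatFunc k))) (dg : ℕ → (Ω ≃ₐ[RatFunc k] Ω) → ℕ),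
      HOk S H ∧ DegOk S H dg ∧ (∀ m, Ht.IsDeg m (dg m)) ∧ IsNm H.nm ∧ IsPDeg Ω H.deg ∧
      H.j = hfM Ω := by
  obtain ⟨H, h1, h3, h4, h5⟩ := exists_HOk h2 S hNN hD hsg hW
  obtain ⟨dg, h6, h7⟩ := exists_dg (k := k) (Ω := Ω) h2
  exact ⟨H, dg, h1, degOk_sys h2 S hNN hD hsg H h3 h4 h6 h7, h7, h3, h4, h5⟩

end gen

section jac

variable {k : Type} [Field k] [Finite k] {Ω : Type} [Field Ω] [Algebra (RatFunc k) Ω]
  [IsSepClosure (RatFunc k) Ω] {g : ℕ} (a : Fin (2 * g + 1) → k[X]) [HypP a]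

/-- Jacobians. -/
theorem hok_sysOf (hok : (SmJ.sysOf Ω a).Ok) :
    ∃ (H : HData (VJ Ω (rfa a)) (MuT Ω) (Place k (RatFunc k)))
      (dg : ℕ → (Ω ≃ₐ[RatFunc k] Ω) → ℕ),
      HOk (SmJ.sysOf Ω a) H ∧ DegOk (SmJ.sysOf Ω a) H dg ∧ (∀ m, Ht.IsDeg m (dg m)) ∧
      IsNm H.nm ∧ IsPDeg Ω H.deg ∧ H.j = hfM Ω :=
  exists_HOk_deg (HypP.two a) (SmJ.sysOf Ω a) rfl (fun _ => rfl) (fun _ => rfl)
    (weil_sysOf a hok)

end jac

section ell

variable {k : Type} [Field k] [Finite k] {Ω : Type} [Field Ω] [Algebra (RatFunc k) Ω]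
  [IsSepClosure (RatFunc k) Ω] {α β : k[X]}

open scoped Classical in
/-- Genus one. -/
theorem hok_sysE (h2 : (2 : k) ≠ 0) (hα : α ≠ 0) (hβ : β ≠ 0) (hαβ : α ≠ β)
    (hc : ∀ c : k, β ≠ C c * α) :
    ∃ (H : HData (SmithE.VV Ω (0 : RatFunc k) (algebraMap k[X] (RatFunc k) α)
        (algebraMap k[X] (RatFunc k) β)) (MuT Ω) (Place k (RatFunc k)))
      (dg : ℕ → (Ω ≃ₐ[RatFunc k] Ω) → ℕ),
      HOk (sysJ (Sm.Inst.sysOf Ω h2 hα hβ hαβ)) H ∧
      DegOk (sysJ (Sm.Inst.sysOf Ω h2 hα hβ hαβ)) H dg ∧ (∀ m, Ht.IsDeg m (dg m)) ∧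
      IsNm H.nm ∧ IsPDeg Ω H.deg ∧ H.j = hfM Ω := by
  refine exists_HOk_deg h2 (sysJ (Sm.Inst.sysOf Ω h2 hα hβ hαβ)) rfl (fun _ => rfl)
    (fun _ => rfl) ?_
  obtain ⟨e, he⟩ := Sm.Inst.weil_sysOf (Ω := Ω) h2 hα hβ hαβ hc
  exact ⟨e,
    { add_left := he.add_left
      add_right := he.add_right
      alt := he.alt
      comp := he.comp
      equiv := he.equiv
      one := he.one
      fix := he.fix }⟩

end ell

end Pool.Agent.SmH
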