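import Pool.Agent.Lib.SmJ.P.Coh
import Pool.Agent.Lib.Sm.P.Mu
import Pool.Agent.Lib.SM.C.Hasse

/-!
# HEIGHTS, instance: K2, the Hasse principle for two-cocycles with values in `MuT Ω` over `k(t)`
-/

set_option autoImplicit false

namespace Pool.Agent.SmH

open Pool.Agent.SmJ Pool.Agent.SmithC Pool.Agent.SmP Pool.Agent.SmD Pool.Agent.Lib.SmD
  Pool.Agent.BSDFF

variable {k Ω : Type} [Field k] [Field Ω] [Algebra (RatFunc k) Ω]

/-- The unit of an element of `MuT Ω`. -/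
def uU (m : MuT Ω) : Ωˣ := Additive.toMul m.1

omit [Field k] [Algebra (RatFunc k) Ω] in
theorem uU_add (a b : MuT Ω) : uU (a + b) = uU a * uU b := rfl

omit [Field k] [Algebra (RatFunc k) Ω] in
theorem uU_sub (a b : MuT Ω) : uU (a - b) = uU a * (uU b)⁻¹ := by
  rw [sub_eq_add_neg]
  rfl

theorem uU_smul (s : GG k Ω) (a : MuT Ω) : uU (s • a) = s • uU a := Units.ext rfl

omit [Field k] [Algebra (RatFunc k) Ω] in
theorem uU_inj {a b : MuT Ω} (h : uU a = uU b) : a = b :=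
  Subtype.ext (Additive.toMul.injective h)

omit [Field k] [Algebra (RatFunc k) Ω] in
theorem uU_pow {a : MuT Ω} {e : ℕ} (h : (2 : ℕ) ^ e • a = 0) : uU a ^ (2 ^ e) = 1 := by
  have h1 : (2 : ℕ) ^ e • (a : Additive Ωˣ) = 0 := congrArg Subtype.val h
  exact congrArg Additive.toMul h1

omit [Field k] [Algebra (RatFunc k) Ω] in
theorem exists_uU {u : Ωˣ} {e : ℕ} (h : u ^ (2 ^ e) = 1) : ∃ a : MuT Ω, uU a = u :=
  ⟨⟨Additive.ofMul u, e, congrArg Additive.ofMul h⟩, rfl⟩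

/-- A function of two variables constant on the cosets of a subgroup of finite index, with values
in `MuT Ω`, has bounded exponent. -/
theorem exists_exp {G : Type*} [Group G] (N : Subgroup G) [Finite (G ⧸ N)] (c : G → G → MuT Ω)
    (hc : ∀ s t, ∀ n ∈ N, ∀ m ∈ N, c (s * n) (t * m) = c s t) :
    ∃ e : ℕ, ∀ s t, (2 : ℕ) ^ e • c s t = 0 := by
  classical
  have := Fintype.ofFinite (G ⧸ N)
  choose j hj using fun p : (G ⧸ N) × (G ⧸ N) =>
    (c (Quotient.out p.1) (Quotient.out p.2)).tors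
  refine ⟨Finset.univ.sup j, fun s t => ?_⟩
  have hout : ∀ s : G, (Quotient.out (QuotientGroup.mk s : G ⧸ N))⁻¹ * s ∈ N := fun s => by
    rw [← QuotientGroup.eq]
    exact Quotient.out_eq _
  have h1 : c s t = c (Quotient.out (QuotientGroup.mk s : G ⧸ N))
      (Quotient.out (QuotientGroup.mk t : G ⧸ N)) := by
    rw [← hc (Quotient.out (QuotientGroup.mk s : G ⧸ N))
      (Quotient.out (QuotientGroup.mk t : G ⧸ N)) _ (hout s) _ (hout t), mul_inv_cancel_left,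
      mul_inv_cancel_left]
  have h3 : j (QuotientGroup.mk s, QuotientGroup.mk t) ≤ Finset.univ.sup j :=
    Finset.le_sup (Finset.mem_univ _)
  rw [h1, ← Nat.sub_add_cancel h3, pow_add, mul_smul, hj (QuotientGroup.mk s, QuotientGroup.mk t),
    smul_zero]

variable {V V1 : Type*} [AddCommGroup V] [DistribMulAction (Ω ≃ₐ[RatFunc k] Ω) V]
  [AddCommGroup V1] [Module (ZMod 2) V1]

/-- K2 for `MuT Ω`: no condition at the infinite place. -/
theorem hasse_muT_fin [Finite k] [IsSepClosure (RatFunc k) Ω] (h2 : (2 : k) ≠ 0)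
    {S : Sys (Ω ≃ₐ[RatFunc k] Ω) V V1 (Place k (RatFunc k))}
    (hNN : S.NN = Pool.Agent.SmD.NN (RatFunc k) Ω) (hD : ∀ v, S.D v = dv Ω v)
    (c : (Ω ≃ₐ[RatFunc k] Ω) → (Ω ≃ₐ[RatFunc k] Ω) → MuT Ω) (hc : S.TF2 c)
    (hcoc : ∀ s t w, c s t + c (s * t) w = s • c t w + c s (t * w))
    (hloc : ∀ v, v ≠ placeInfty k → S.Coh (S.D v) c (fun _ _ => 0)) :
    ∃ b : (Ω ≃ₐ[RatFunc k] Ω) → MuT Ω, S.TF b ∧ ∀ s t, c s t = b s + s • b t - b (s * t) := by
  classical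
  obtain ⟨N, hN, hNc⟩ := hc
  rw [hNN] at hN
  have hfin : Finite ((Ω ≃ₐ[RatFunc k] Ω) ⧸ N) := Subgroup.quotient_finite_of_isOpen N
    (NN.isOpen hN)
  obtain ⟨e, he⟩ := exists_exp N c hNc
  obtain ⟨b, hbM, ⟨N', hN', hbN⟩, hb⟩ := hasse_mu (Ω := Ω) h2 e (fun s t => uU (c s t))
    (fun s t => uU_pow (he s t)) ⟨N, hN, fun s t n hn m hm => congrArg uU (hNc s t n hn m hm)⟩
    (fun s t w => by
      change uU (c s t) * uU (c (s * t) w) = s • uU (c t w) * uU (c s (t * w))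
      rw [← uU_add, hcoc, uU_add, uU_smul])
    (fun v hv => by
      obtain ⟨β, ⟨M, hM, h1⟩, h3⟩ := hloc v hv
      rw [hNN] at hM
      refine ⟨fun s => uU (β s), ⟨M, NN.normal hM, NN.isOpen hM, fun s hs n hn hnD => ?_⟩,
        fun s hs t ht => ?_⟩
      · exact congrArg uU (h1 s (by rw [hD]; exact hs) n hn (by rw [hD]; exact hnD))
      · have h4 := h3 s (by rw [hD]; exact hs) t (by rw [hD]; exact ht)
        change uU (c s t) = uU (β s) * s • uU (β t) * (uU (β (s * t)))⁻¹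
        rw [h4, zero_add, uU_sub, uU_add, uU_smul])
  choose a ha using fun s => exists_uU (hbM s)
  refine ⟨a, ⟨N', by rw [hNN]; exact hN', fun s n hn => uU_inj ?_⟩, fun s t => uU_inj ?_⟩
  · rw [ha, ha, hbN s n hn]
  · rw [uU_sub, uU_add, uU_smul, ha, ha, ha]
    exact hb s t

/-- K2 for `MuT Ω`, the field `HOk.hasse` word for word. -/
theorem hasse_muT [Finite k] [IsSepClosure (RatFunc k) Ω] (h2 : (2 : k) ≠ 0)
    {S : Sys (Ω ≃ₐ[RatFunc k] Ω) V V1 (Place k (RatFunc k))}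
    (hNN : S.NN = Pool.Agent.SmD.NN (RatFunc k) Ω) (hD : ∀ v, S.D v = dv Ω v)
    (c : (Ω ≃ₐ[RatFunc k] Ω) → (Ω ≃ₐ[RatFunc k] Ω) → MuT Ω) (hc : S.TF2 c)
    (hcoc : ∀ s t w, c s t + c (s * t) w = s • c t w + c s (t * w))
    (hloc : ∀ v, S.Coh (S.D v) c (fun _ _ => 0)) :
    ∃ b : (Ω ≃ₐ[RatFunc k] Ω) → MuT Ω, S.TF b ∧ ∀ s t, c s t = b s + s • b t - b (s * t) :=
  hasse_muT_fin h2 hNN hD c hc hcoc fun v _ => hloc v

end Pool.Agent.SmH
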